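import Mathlib
import Pool.Agent.U605.CZ.Comm2

/-! The polynomials which commute with an `n`-central polynomial `f` for `M_n(K)`, `n` an odd prime:
an explicit expansion in powers of `f`, the discriminant, and, in characteristic not `2`, their
values on matrices of size two and the commutators among them. -/

set_option autoImplicit false

universe u v

namespace Pool.Agent.Results.MP_5d2531_al.CentralizerDiscriminant

open Pool.Agent.U605.CZ

/-- Every value of `f` on `n × n` matrices over `K` is a scalar matrix. -/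
def ScalarValued {K : Type u} [Field K] {σ : Type v} (n : ℕ) (f : FreeAlgebra K σ) : Prop :=
  ∀ X : σ → Matrix (Fin n) (Fin n) K, ∃ c : K, FreeAlgebra.lift K X f = Matrix.scalar (Fin n) c

/-- `f` is central for `M_n(K)`: all values are scalar and `f` is not identically zero. -/
def IsCentral {K : Type u} [Field K] {σ : Type v} (n : ℕ) (f : FreeAlgebra K σ) : Prop :=
  ScalarValued n f ∧ ∃ X : σ → Matrix (Fin n) (Fin n) K, FreeAlgebra.lift K X f ≠ 0

/-- `f` is `ν`-central for `M_n(K)`: `ν` is the least positive integer with `f ^ ν` central. -/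
def IsNuCentral {K : Type u} [Field K] {σ : Type v} (n ν : ℕ) (f : FreeAlgebra K σ) : Prop :=
  0 < ν ∧ IsCentral n (f ^ ν) ∧ ∀ μ : ℕ, 0 < μ → IsCentral n (f ^ μ) → ν ≤ μ

/-- `g` commutes with `f` on `M_n(K)`: so do their values at every tuple of matrices. -/
def CommuteOn {K : Type u} [Field K] {σ : Type v} (n : ℕ) (f g : FreeAlgebra K σ) : Prop :=
  ∀ X : σ → Matrix (Fin n) (Fin n) K,
    FreeAlgebra.lift K X f * FreeAlgebra.lift K X g = FreeAlgebra.lift K X g * FreeAlgebra.lift K X f

/-- The value at the tuple `X` of the polynomial function `γ` of the entries of the matrices. -/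
noncomputable def valueAt {K : Type u} [Field K] {σ : Type v} {n : ℕ}
    (γ : MvPolynomial (σ × Fin n × Fin n) K) (X : σ → Matrix (Fin n) (Fin n) K) : K :=
  MvPolynomial.eval (fun q => X q.1 q.2.1 q.2.2) γ

/-- The determinant of the `n × n` matrix whose entries are the traces of `A ^ (i + j)`,
`0 ≤ i, j < n`. -/
noncomputable def traceDisc {K : Type u} [Field K] {n : ℕ} (A : Matrix (Fin n) (Fin n) K) : K :=
  (Matrix.of fun i j : Fin n => (A ^ ((i : ℕ) + (j : ℕ))).trace).det

/-- `h` is a polynomial in the variables other than `x`. -/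
def Avoids {K : Type u} [Field K] {σ : Type v} (x : σ) (h : FreeAlgebra K σ) : Prop :=
  h ∈ Algebra.adjoin K (FreeAlgebra.ι K '' {y | y ≠ x})

/-- Let `n` be an odd prime, `K` an infinite field in which `n` is not zero, and `f` an `n`-central
polynomial for `M_n(K)`.  Let `g` be a polynomial which commutes with `f` on `M_n(K)`.
* `tr(f ^ n) g = ∑ tr(g f ^ (n - k)) f ^ k`, the sum over `0 ≤ k < n`, at all matrices.
* The determinant of the traces of `g ^ (i + j)`, `0 ≤ i, j < n`, is
  `(-1) ^ ((n - 1) / 2) n δ ^ 2` for a polynomial function `δ` of the entries of the matrices.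
* If `2` is not zero in `K`, then `g` takes only scalar values on `M_2(K)`, and `g` is not of the
  form `x h - h x` with a variable `x` and a polynomial `h` in the other variables that takes on
  `M_n(K)` a value with separable characteristic polynomial. -/
theorem result {K : Type u} [Field K] [Infinite K] {σ : Type v} [DecidableEq σ] (n : ℕ)
    (hn : n.Prime) (hn2 : n ≠ 2) (hnK : (n : K) ≠ 0) (f : FreeAlgebra K σ)
    (hf : IsNuCentral n n f) (g : FreeAlgebra K σ) (hg : CommuteOn n f g) :
    (∀ X : σ → Matrix (Fin n) (Fin n) K,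
      (FreeAlgebra.lift K X (f ^ n)).trace • FreeAlgebra.lift K X g =
        ∑ k ∈ Finset.range n, (FreeAlgebra.lift K X (g * f ^ (n - k))).trace •
          FreeAlgebra.lift K X (f ^ k)) ∧
    (∃ δ : MvPolynomial (σ × Fin n × Fin n) K, ∀ X : σ → Matrix (Fin n) (Fin n) K,
      traceDisc (FreeAlgebra.lift K X g) = (-1) ^ ((n - 1) / 2) * (n : K) * valueAt δ X ^ 2) ∧
    ((2 : K) ≠ 0 →
      ScalarValued 2 g ∧
      ∀ (x : σ) (h : FreeAlgebra K σ), Avoids x h →
        (∃ X : σ → Matrix (Fin n) (Fin n) K, (FreeAlgebra.lift K X h).charpoly.Separable) →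
        g ≠ FreeAlgebra.ι K x * h - h * FreeAlgebra.ι K x) := by
  have hodd : Odd n := hn.odd_of_ne_two hn2
  have hn3 : 3 ≤ n := by have := hn.two_le; omega
  obtain ⟨h1, ⟨h2, X0, hX0⟩, h3⟩ := hf
  have hfX0 : FreeAlgebra.lift K X0 f ≠ 0 := by
    intro hz
    apply hX0
    rw [map_pow, hz, zero_pow hn.ne_zero]
  have hpow : ∀ X : σ → Matrix (Fin n) (Fin n) K, ∀ Z : Matrix (Fin n) (Fin n) K,
      FreeAlgebra.lift K X (f ^ n) * Z = Z * FreeAlgebra.lift K X (f ^ n) := by
    intro X Z
    obtain ⟨c, hc⟩ := h2 X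
    rw [hc]
    exact (Matrix.scalar_commute c (fun _ => Commute.all _ _) Z).eq
  have hne : ∃ X : σ → Matrix (Fin n) (Fin n) K, ∃ Z : Matrix (Fin n) (Fin n) K,
      FreeAlgebra.lift K X f * Z ≠ Z * FreeAlgebra.lift K X f := by
    by_contra hcon
    push Not at hcon
    have h4 : IsCentral n (f ^ 1) := by
      rw [pow_one]
      exact ⟨fun X => Pool.Agent.H552R3.PC.scalar_of_comm _ (fun Y => hcon X Y), X0, hfX0⟩
    have h5 := h3 1 one_pos h4
    omega
  obtain ⟨main1, δ, hδ⟩ := main_gen hn hn2 hnK f g hpow hne ⟨X0, hX0⟩ (fun X => (hg X).symm)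
  refine ⟨fun X => ?_, ⟨δ, fun X => ?_⟩, fun h2K => ⟨fun X => ?_, fun x h hh hX hgx => ?_⟩⟩
  · rw [map_pow, main1 X, Finset.sum_range]
    simp only [map_mul, map_pow]
  · have h4 := disc_alg hδ X
    rw [ev_eval] at h4
    exact h4
  · exact scalar_two hn3 hodd hnK h2K g δ hδ X
  · subst hgx
    obtain ⟨X₀, hX₀⟩ := hX
    exact not_commutator2 hn3 hodd hnK h2K x h hh X₀ hX₀ δ hδ

end Pool.Agent.Results.MP_5d2531_al.CentralizerDiscriminant
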