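import Mathlib
import Pool.Agent.U853.GT.Basic

/-!
# Values of `n`-central polynomials at graded tuples of matrices

`K` is an infinite field, `n` a prime different from the characteristic of `K` and `f` an `n`-central
polynomial for `M_n(K)`. We give the variables and the vectors of the standard basis of `K ^ n` degrees
in an abelian group and look at the values of `f` at the tuples of homogeneous matrices.
-/

set_option autoImplicit false

namespace Pool.Agent.Results.MP_5d2531_al.GradedTuples

open Matrix Pool.Agent.U853.GT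
open Pool.Agent.Results.MP_5d2531_al.BlockTriangular (IsNuCentral coef)

variable {K : Type*} [Field K] {σ : Type*}

/-- `f` is homogeneous of weight `s`: all words which occur in `f` have the weight `s`, where the
variable `i` has the weight `k i`. -/
def Homogeneous {Γ : Type*} [AddCommGroup Γ] (k : σ → Γ) (s : Γ) (f : FreeAlgebra K σ) : Prop :=
  ∀ l : List σ, coef f l ≠ 0 → (l.map k).sum = s

/-- The matrices `X i` are homogeneous of the degrees `k i`, where the `p`-th vector of the standard
basis has the degree `deg p`. -/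
def Graded {Γ : Type*} [AddCommGroup Γ] {n : ℕ} (k : σ → Γ) (deg : Fin n → Γ)
    (X : σ → Matrix (Fin n) (Fin n) K) : Prop :=
  ∀ i p q, deg p ≠ k i + deg q → X i p q = 0

/-- The multiset of the pairs `(x, a)` where `x` is a letter of the word and `a` is the sum of the
weights of the letters which follow it. -/
def profile {Γ : Type*} [AddCommGroup Γ] (k : σ → Γ) : List σ → Multiset (σ × Γ)
  | [] => 0
  | x :: l => (x, (l.map k).sum) ::ₘ profile k l

/-- The sum of the coefficients of the words with the profile `P`. -/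
noncomputable def classSum {Γ : Type*} [AddCommGroup Γ] (k : σ → Γ) (f : FreeAlgebra K σ)
    (P : Multiset (σ × Γ)) : K := ∑ᶠ (l : List σ) (_ : profile k l = P), coef f l

/-! ### First part -/

section First

variable {n : ℕ} {Γ : Type*} [AddCommGroup Γ]

lemma first_part (hn : n.Prime) (deg : Fin n → Γ) (s : Γ) (M : Matrix (Fin n) (Fin n) K)
    (hM : Gr deg s M) (c : K) (hc : M ^ n = Matrix.scalar (Fin n) c) (h0 : M ^ n ≠ 0) (hs : s ≠ 0) :
    n • s = 0 ∧ Function.Injective deg ∧ ∀ (p : Fin n) (j : ℕ), ∃ q, deg q = j • s + deg p := by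
  have : NeZero n := ⟨hn.ne_zero⟩
  have hc0 : c ≠ 0 := by
    rintro rfl
    apply h0
    rw [hc, map_zero]
  have h1 : n • s = 0 := by
    by_contra hne
    have h2 := gr_pow deg hM n 0 0 (by
      intro h
      apply hne
      have : deg 0 = deg 0 + n • s := by rw [add_comm]; exact h
      exact left_eq_add.mp this)
    rw [hc] at h2
    simp at h2
    exact hc0 h2
  have h3 : ∀ (p : Fin n) (j : ℕ), ∃ q, deg q = j • s + deg p := by
    intro p j
    by_contra hcon
    push Not at hcon
    have h4 : ∀ q, (M ^ j) q p = 0 := fun q => gr_pow deg hM j q p (hcon q)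
    have h5 : (M ^ (n * j)) p p = 0 := by
      have : n * j = (n - 1) * j + j := by
        have := hn.one_lt
        obtain ⟨m, rfl⟩ : ∃ m, n = m + 1 := ⟨n - 1, by omega⟩
        simp; ring
      rw [this, pow_add, Matrix.mul_apply]
      apply Finset.sum_eq_zero
      intro r _
      rw [h4, mul_zero]
    rw [pow_mul, hc, ← map_pow] at h5
    simp at h5
    exact hc0 h5.1
  refine ⟨h1, ?_, h3⟩
  -- the degrees are distinct
  have hord : addOrderOf s = n := by
    have : Fact n.Prime := ⟨hn⟩
    exact addOrderOf_eq_prime h1 hs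
  choose g hg using h3 0
  have hginj : Function.Injective (fun j : Fin n => g (j : ℕ)) := by
    intro a b hab
    have h4 : (a : ℕ) • s = (b : ℕ) • s := by
      have h5 := hg a
      have h6 := hg b
      have hab' : g (a : ℕ) = g (b : ℕ) := hab
      rw [hab', h6] at h5
      exact (add_right_cancel h5).symm
    have h5 := (nsmul_eq_nsmul_iff_modEq (x := s)).mp h4
    rw [hord] at h5
    apply Fin.ext
    have h6 := Nat.ModEq.eq_of_lt_of_lt h5 a.2 b.2
    exact h6
  have hgsurj := Finite.surjective_of_injective hginj
  intro p q hpq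
  obtain ⟨a, rfl⟩ := hgsurj p
  obtain ⟨b, rfl⟩ := hgsurj q
  have h4 : (a : ℕ) • s = (b : ℕ) • s := by
    have h5 := hg a
    have h6 := hg b
    have hpq' : deg (g (a : ℕ)) = deg (g (b : ℕ)) := hpq
    rw [h5, h6] at hpq'
    exact add_right_cancel hpq'
  have h5 := (nsmul_eq_nsmul_iff_modEq (x := s)).mp h4
  rw [hord] at h5
  have h6 : a = b := Fin.ext (Nat.ModEq.eq_of_lt_of_lt h5 a.2 b.2)
  rw [h6]

lemma second_part (hn : n.Prime) (hnK : (n : K) ≠ 0) (hz : ∀ ζ : K, ¬ IsPrimitiveRoot ζ n)
    (deg : Fin n → Γ) (M : Matrix (Fin n) (Fin n) K) (hM : Gr deg 0 M) (c : K)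
    (hch : M.charpoly = Polynomial.X ^ n - Polynomial.C c) (p q : Fin n) (hpq : p ≠ q)
    (hp : ∀ r, deg r = deg p → r = p) (hq : ∀ r, deg r = deg q → r = q) :
    c = 0 ∧ M p p = 0 := by
  have hcp : ∀ i, i ≠ p → M i p = 0 := by
    intro i hi
    apply hM
    rw [zero_add]
    exact fun h => hi (hp i h)
  have hcq : ∀ i, i ≠ q → M i q = 0 := by
    intro i hi
    apply hM
    rw [zero_add]
    exact fun h => hi (hq i h)
  have hc := pow_eq_scalar M c hch
  have h1 := (col_pow M p hcp n).1
  have h2 := (col_pow M q hcq n).1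
  rw [hc] at h1 h2
  simp at h1 h2
  have h3 : M q q = M p p := eq_of_pow hn hz _ _ (h2.symm.trans h1)
  have h4 := double_eigen M p q hpq (M p p) hcp hcq rfl h3
  rw [hch] at h4
  have h5 := double_root hn hnK c (M p p) h4
  exact ⟨h5.2, h5.1⟩

/-- If the cyclotomic polynomial is irreducible over `K` then the divisors of `T ^ n - c` have degree
at most one or at least `n - 1`. -/
lemma degree_divisor (hn : n.Prime) (hirr : Irreducible (Polynomial.cyclotomic n K)) (c : K)
    (hc0 : c ≠ 0) (g : Polynomial K)
    (hg : g ∣ (Polynomial.X ^ n - Polynomial.C c : Polynomial K)) :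
    g.natDegree ≤ 1 ∨ n - 1 ≤ g.natDegree := by
  have hn1 := hn.one_lt
  have : Fact n.Prime := ⟨hn⟩
  by_cases hb : ∀ b : K, b ^ n ≠ c
  · have hi := X_pow_sub_C_irreducible_of_prime hn hb
    rcases (Irreducible.dvd_iff hi).mp hg with h | h
    · left
      rw [Polynomial.natDegree_eq_zero_of_isUnit h]
      omega
    · right
      have h1 := Polynomial.natDegree_eq_of_degree_eq (Polynomial.degree_eq_degree_of_associated h)
      rw [Polynomial.natDegree_X_pow_sub_C] at h1
      omega
  · push Not at hb
    obtain ⟨r, rfl⟩ := hb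
    have hr : r ≠ 0 := by
      rintro rfl
      exact hc0 (zero_pow hn.ne_zero)
    set q : Polynomial K := Polynomial.C r * Polynomial.X with hq
    have hqd : q.natDegree = 1 := by
      rw [hq, Polynomial.natDegree_C_mul hr, Polynomial.natDegree_X]
    have hgd : (g.comp q).natDegree = g.natDegree := by
      rw [Polynomial.natDegree_comp, hqd, mul_one]
    have h1 : g.comp q ∣ Polynomial.C (r ^ n) * (Polynomial.cyclotomic n K *
        (Polynomial.X - 1)) := by
      obtain ⟨h, hh⟩ := hg
      refine ⟨h.comp q, ?_⟩
      rw [← Polynomial.mul_comp, ← hh, Polynomial.cyclotomic_prime_mul_X_sub_one, hq]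
      simp only [Polynomial.sub_comp, Polynomial.pow_comp, Polynomial.X_comp, Polynomial.C_comp,
        mul_pow, ← Polynomial.C_pow]
      ring
    have hu : IsUnit (Polynomial.C (r ^ n) : Polynomial K) :=
      Polynomial.isUnit_C.mpr (isUnit_iff_ne_zero.mpr (pow_ne_zero _ hr))
    rw [IsUnit.dvd_mul_left hu] at h1
    rw [← hgd]
    by_cases hdiv : Polynomial.cyclotomic n K ∣ g.comp q
    · right
      have hne : g.comp q ≠ 0 := by
        intro h0
        rw [h0, zero_dvd_iff] at h1
        rcases mul_eq_zero.mp h1 with h2 | h2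
        · exact hirr.ne_zero h2
        · exact Polynomial.X_sub_C_ne_zero (1 : K) (by simpa using h2)
      have h2 := Polynomial.natDegree_le_of_dvd hdiv hne
      rw [Polynomial.natDegree_cyclotomic, Nat.totient_prime hn] at h2
      exact h2
    · left
      have hcop : IsCoprime (Polynomial.cyclotomic n K) (g.comp q) :=
        (hirr.coprime_iff_not_dvd).mpr hdiv
      have h2 := hcop.symm.dvd_of_dvd_mul_left h1
      have h3 := Polynomial.natDegree_le_of_dvd h2 (by
        have := Polynomial.X_sub_C_ne_zero (1 : K)
        simpa using this)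
      have h4 : (Polynomial.X - 1 : Polynomial K).natDegree = 1 := by
        have := Polynomial.natDegree_X_sub_C (1 : K)
        simpa using this
      omega

lemma block_part (hn : n.Prime) (hirr : Irreducible (Polynomial.cyclotomic n K))
    (deg : Fin n → Γ) (M : Matrix (Fin n) (Fin n) K) (hM : Gr deg 0 M) (c : K) (hc0 : c ≠ 0)
    (hch : M.charpoly = Polynomial.X ^ n - Polynomial.C c) (γ : Γ) :
    Nat.card {p // deg p = γ} ≤ 1 ∨ n - 1 ≤ Nat.card {p // deg p = γ} := by
  classical
  have h := Matrix.twoBlockTriangular_det M.charmatrix (fun i => deg i = γ) (by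
    intro i hi j hj
    have hij : i ≠ j := by
      rintro rfl
      exact hi hj
    rw [Matrix.charmatrix_apply_ne _ _ _ hij, hM i j (by rw [zero_add, hj]; exact hi)]
    simp)
  have h1 : (Matrix.toSquareBlockProp M (fun i => deg i = γ)).charmatrix =
      Matrix.toSquareBlockProp M.charmatrix (fun i => deg i = γ) := by
    ext1 i j
    by_cases hij : i = j
    · subst hij
      rw [Matrix.charmatrix_apply_eq]
      show _ = M.charmatrix i i
      rw [Matrix.charmatrix_apply_eq]
      rfl
    · rw [Matrix.charmatrix_apply_ne _ _ _ hij]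
      show _ = M.charmatrix i j
      rw [Matrix.charmatrix_apply_ne _ _ _ (fun h => hij (Subtype.ext h))]
      rfl
  have h2 : (Matrix.toSquareBlockProp M (fun i => deg i = γ)).charpoly ∣
      (Polynomial.X ^ n - Polynomial.C c) := by
    rw [← hch, Matrix.charpoly, Matrix.charpoly, h, h1]
    exact Dvd.intro _ rfl
  have h3 := degree_divisor hn hirr c hc0 _ h2
  rw [Matrix.charpoly_natDegree_eq_dim] at h3
  rw [Nat.card_eq_fintype_card]
  exact h3

end First

/-! ### Second part: the regular grading by `ZMod n` -/

section Second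

variable {n : ℕ}

/-- the product of the variables of a profile -/
noncomputable def mono (P : Multiset (σ × ZMod n)) : (σ × ZMod n) →₀ ℕ :=
  letI := Classical.decEq (σ × ZMod n)
  Multiset.toFinsupp P

lemma mono_inj {P Q : Multiset (σ × ZMod n)} (h : mono P = mono Q) : P = Q :=
  letI := Classical.decEq (σ × ZMod n)
  Multiset.toFinsupp.injective h

lemma toFinsupp_prod {α : Type*} [DecidableEq α] (P : Multiset α) (g : α → K) :
    (Multiset.toFinsupp P).prod (fun x e => g x ^ e) = (P.map g).prod := by
  induction P using Multiset.induction_on with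
  | empty => simp
  | cons a P ih =>
    rw [← Multiset.singleton_add, map_add, Finsupp.prod_add_index' (by simp)
      (by intros; rw [pow_add]), Multiset.toFinsupp_singleton, Finsupp.prod_single_index (by simp),
      pow_one, ih, Multiset.map_add, Multiset.prod_add, Multiset.map_singleton,
      Multiset.prod_singleton]

lemma mono_prod (P : Multiset (σ × ZMod n)) (g : σ × ZMod n → K) :
    (mono P).prod (fun x e => g x ^ e) = (P.map g).prod :=
  @toFinsupp_prod K _ _ (Classical.decEq _) P g

/-- shift of the second coordinates -/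
def sh (a : ZMod n) (x : σ × ZMod n) : σ × ZMod n := (x.1, x.2 + a)

lemma sh_inj (a : ZMod n) : Function.Injective (sh (σ := σ) a) := by
  rintro ⟨x, b⟩ ⟨y, c⟩ h
  simp only [sh, Prod.mk.injEq] at h
  obtain ⟨h1, h2⟩ := h
  rw [h1, add_right_cancel h2]

/-- the diagonal entries as polynomials -/
noncomputable def F (k : σ → ZMod n) (f : FreeAlgebra K σ) (a : ZMod n) :
    MvPolynomial (σ × ZMod n) K :=
  ∑ l ∈ words f, MvPolynomial.monomial (mono ((profile k l).map (sh a))) (coef f l)

lemma eval_F (k : σ → ZMod n) (f : FreeAlgebra K σ) (a : ZMod n) (D : σ × ZMod n → K) :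
    MvPolynomial.eval D (F k f a) =
      ∑ l ∈ words f, coef f l * (((profile k l).map (sh a)).map D).prod := by
  unfold F
  rw [map_sum]
  apply Finset.sum_congr rfl
  intro l _
  rw [MvPolynomial.eval_monomial]
  congr 1
  exact mono_prod _ _

lemma eval_F_shift (k : σ → ZMod n) (f : FreeAlgebra K σ) (a b : ZMod n) (D : σ × ZMod n → K) :
    MvPolynomial.eval D (F k f (a + b)) = MvPolynomial.eval (fun x => D (sh a x)) (F k f b) := by
  rw [eval_F, eval_F]
  apply Finset.sum_congr rfl
  intro l _
  rw [Multiset.map_map, Multiset.map_map]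
  congr 2
  apply Multiset.map_congr rfl
  intro x _
  simp only [Function.comp_apply, sh]
  congr 2
  ring

variable [NeZero n]

/-- the homogeneous tuple with the entries `D` -/
def cyc (k : σ → ZMod n) (D : σ × ZMod n → K) (i : σ) : Matrix (Fin n) (Fin n) K :=
  Matrix.of fun p q => if ((p : ℕ) : ZMod n) = k i + ((q : ℕ) : ZMod n) then
    D (i, ((q : ℕ) : ZMod n)) else 0

lemma cast_inj {p q : Fin n} (h : ((p : ℕ) : ZMod n) = ((q : ℕ) : ZMod n)) : p = q := by
  apply Fin.ext
  have h1 := congrArg ZMod.val h
  rwa [ZMod.val_natCast_of_lt p.2, ZMod.val_natCast_of_lt q.2] at h1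

lemma exists_fin (a : ZMod n) : ∃ p : Fin n, ((p : ℕ) : ZMod n) = a :=
  ⟨⟨a.val, ZMod.val_lt a⟩, ZMod.natCast_zmod_val a⟩

lemma word_cyc (k : σ → ZMod n) (D : σ × ZMod n → K) (l : List σ) (p q : Fin n) :
    (l.map (cyc k D)).prod p q = if ((p : ℕ) : ZMod n) = (l.map k).sum + ((q : ℕ) : ZMod n) then
      (((profile k l).map (sh ((q : ℕ) : ZMod n))).map D).prod else 0 := by
  induction l generalizing p with
  | nil =>
    simp only [List.map_nil, List.prod_nil, List.sum_nil, zero_add, profile, Multiset.map_zero,
      Multiset.prod_zero]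
    by_cases h : p = q
    · subst h; simp
    · rw [Matrix.one_apply_ne h, if_neg (fun h' => h (cast_inj h'))]
  | cons i l ih =>
    rw [List.map_cons, List.prod_cons, Matrix.mul_apply]
    obtain ⟨r, hr⟩ := exists_fin ((l.map k).sum + ((q : ℕ) : ZMod n))
    rw [Finset.sum_eq_single r]
    · rw [ih, if_pos hr]
      unfold cyc
      rw [Matrix.of_apply, hr, List.map_cons, List.sum_cons, ← add_assoc]
      split_ifs with h
      · simp only [profile, Multiset.map_cons, Multiset.prod_cons, sh]
      · rw [zero_mul]
    · intro r' _ hr'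
      rw [ih, if_neg, mul_zero]
      intro h
      exact hr' (cast_inj (h.trans hr.symm))
    · simp

lemma lift_cyc (k : σ → ZMod n) (f : FreeAlgebra K σ) (hf : Homogeneous k 0 f)
    (D : σ × ZMod n → K) (p : Fin n) :
    FreeAlgebra.lift K (cyc k D) f p p = MvPolynomial.eval D (F k f ((p : ℕ) : ZMod n)) := by
  rw [lift_eq, Matrix.sum_apply, eval_F]
  apply Finset.sum_congr rfl
  intro l hl
  rw [Matrix.smul_apply, word_cyc, hf l ((mem_words f l).mp hl), zero_add, if_pos rfl, smul_eq_mul]

lemma cyc_graded (k : σ → ZMod n) (D : σ × ZMod n → K) :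
    Graded k (fun p : Fin n => ((p : ℕ) : ZMod n)) (cyc k D) := by
  intro i p q h
  unfold cyc
  rw [Matrix.of_apply, if_neg h]

lemma eq_cyc (k : σ → ZMod n) (X : σ → Matrix (Fin n) (Fin n) K)
    (hX : Graded k (fun p : Fin n => ((p : ℕ) : ZMod n)) X) : ∃ D, X = cyc k D := by
  choose e he using (fun a : ZMod n => exists_fin a)
  refine ⟨fun x => X x.1 (e (k x.1 + x.2)) (e x.2), ?_⟩
  funext i
  ext p q
  unfold cyc
  rw [Matrix.of_apply]
  split_ifs with h
  · have h1 : e (k i + ((q : ℕ) : ZMod n)) = p := cast_inj (by rw [he, h])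
    have h2 : e ((q : ℕ) : ZMod n) = q := cast_inj (by rw [he])
    simp only [h1, h2]
  · exact hX i p q h

lemma cls_eq (k : σ → ZMod n) (f : FreeAlgebra K σ) (P : Multiset (σ × ZMod n)) :
    classSum k f P = MvPolynomial.coeff (mono P) (F k f 0) := by
  classical
  unfold classSum F
  rw [MvPolynomial.coeff_sum]
  simp only [finsum_eq_if]
  rw [finsum_eq_sum_of_support_subset (s := words f)]
  · apply Finset.sum_congr rfl
    intro l _
    rw [MvPolynomial.coeff_monomial]
    have h1 : (profile k l).map (sh (0 : ZMod n)) = profile k l := by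
      have : (sh (0 : ZMod n) : σ × ZMod n → σ × ZMod n) = id := by
        funext x; simp [sh]
      rw [this, Multiset.map_id]
    rw [h1]
    by_cases h : profile k l = P
    · rw [if_pos h, if_pos (by rw [h])]
    · rw [if_neg h, if_neg (fun h' => h (mono_inj h'))]
  · intro l hl
    rw [Function.mem_support] at hl
    rw [Finset.mem_coe, mem_words]
    intro h
    apply hl
    rw [h, ite_self]

lemma cls_eq_shift (k : σ → ZMod n) (f : FreeAlgebra K σ) (P : Multiset (σ × ZMod n)) (a : ZMod n) :
    classSum k f P = MvPolynomial.coeff (mono (P.map (sh a))) (F k f a) := by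
  classical
  unfold classSum F
  rw [MvPolynomial.coeff_sum]
  simp only [finsum_eq_if]
  rw [finsum_eq_sum_of_support_subset (s := words f)]
  · apply Finset.sum_congr rfl
    intro l _
    rw [MvPolynomial.coeff_monomial]
    by_cases h : profile k l = P
    · rw [if_pos h, if_pos (by rw [h])]
    · rw [if_neg h, if_neg (fun h' => h (Multiset.map_injective (sh_inj a) (mono_inj h')))]
  · intro l hl
    rw [Function.mem_support] at hl
    rw [Finset.mem_coe, mem_words]
    intro h
    apply hl
    rw [h, ite_self]

omit [NeZero n] in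
/-- a word with a deterministic profile is alone in its class -/
lemma det_word (k : σ → ZMod n) (φ : ZMod n → σ) (l l' : List σ)
    (h : ∀ x ∈ profile k l, x.1 = φ x.2) (hl : l'.length = l.length)
    (h' : ∀ x ∈ profile k l', x.1 = φ x.2) : l' = l := by
  induction l generalizing l' with
  | nil => exact List.length_eq_zero_iff.mp hl
  | cons x l ih =>
    cases l' with
    | nil => simp at hl
    | cons y l' =>
      have h1 : l' = l := by
        apply ih
        · intro z hz
          exact h z (by simp only [profile]; exact Multiset.mem_cons_of_mem hz)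
        · simpa using hl
        · intro z hz
          exact h' z (by simp only [profile]; exact Multiset.mem_cons_of_mem hz)
      subst h1
      have h2 := h (x, (l'.map k).sum) (by simp only [profile]; exact Multiset.mem_cons_self _ _)
      have h3 := h' (y, (l'.map k).sum) (by simp only [profile]; exact Multiset.mem_cons_self _ _)
      simp only at h2 h3
      rw [h2, h3]

omit [NeZero n] in
lemma card_profile (k : σ → ZMod n) (l : List σ) : (profile k l).card = l.length := by
  induction l with
  | nil => rfl
  | cons x l ih => simp only [profile, Multiset.card_cons, ih, List.length_cons]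

omit [NeZero n] in
lemma cls_det (k : σ → ZMod n) (f : FreeAlgebra K σ) (φ : ZMod n → σ) (l : List σ)
    (h : ∀ x ∈ profile k l, x.1 = φ x.2) : classSum k f (profile k l) = coef f l := by
  classical
  unfold classSum
  simp only [finsum_eq_if]
  rw [finsum_eq_single _ l]
  · rw [if_pos rfl]
  · intro l' hl'
    rw [if_neg]
    intro h1
    apply hl'
    apply det_word k φ l l' h
    · rw [← card_profile k l', ← card_profile k l, h1]
    · rw [h1]; exact h

theorem third_part [Infinite K] (hn : n.Prime) (hnK : (n : K) ≠ 0) (f : FreeAlgebra K σ)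
    (hcen : IsNuCentral n n f) (k : σ → ZMod n) (hf : Homogeneous k 0 f) :
    F k f 0 = 0 ∨ ∃ ζ : K, IsPrimitiveRoot ζ n ∧ (F k f 1 = MvPolynomial.C ζ * F k f 0) := by
  classical
  have hn2 := hn.two_le
  let p0 : Fin n := ⟨0, by omega⟩
  let p1 : Fin n := ⟨1, by omega⟩
  have hp01 : p0 ≠ p1 := by simp [p0, p1]
  have hdeg0 : (((p0 : Fin n) : ℕ) : ZMod n) = 0 := by simp [p0]
  have hdeg1 : (((p1 : Fin n) : ℕ) : ZMod n) = 1 := by simp [p1]
  have hcol : ∀ (D : σ × ZMod n → K) (p i : Fin n), i ≠ p →
      FreeAlgebra.lift K (cyc k D) f i p = 0 := by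
    intro D p i hi
    apply gr_lift (fun p : Fin n => ((p : ℕ) : ZMod n)) k (cyc k D) (cyc_graded k D) f 0 hf
    rw [zero_add]
    exact fun h => hi (cast_inj h)
  have hpw : ∀ D : σ × ZMod n → K, (MvPolynomial.eval D (F k f 1)) ^ n
      = (MvPolynomial.eval D (F k f 0)) ^ n := by
    intro D
    obtain ⟨c, hc⟩ := Pool.Agent.R176.NC.charpoly_eq n hn hnK f hcen (cyc k D)
    have h1 := pow_eq_scalar _ c hc
    have h2 := (col_pow _ p0 (hcol D p0) n).1
    have h3 := (col_pow _ p1 (hcol D p1) n).1
    rw [h1, lift_cyc k f hf D] at h2 h3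
    rw [hdeg0] at h2
    rw [hdeg1] at h3
    rw [← h2, ← h3]
    simp
  have hdouble : (∀ D : σ × ZMod n → K, MvPolynomial.eval D (F k f 1)
      = MvPolynomial.eval D (F k f 0)) → F k f 0 = 0 := by
    intro h
    apply MvPolynomial.funext
    intro D
    rw [map_zero]
    obtain ⟨c, hc⟩ := Pool.Agent.R176.NC.charpoly_eq n hn hnK f hcen (cyc k D)
    have h4 := double_eigen _ p0 p1 hp01 (MvPolynomial.eval D (F k f 0)) (hcol D p0) (hcol D p1)
      (by rw [lift_cyc k f hf D, hdeg0]) (by rw [lift_cyc k f hf D, hdeg1, h D])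
    rw [hc] at h4
    exact (double_root hn hnK c _ h4).1
  have hpoly : (F k f 1) ^ n = (F k f 0) ^ n := by
    apply MvPolynomial.funext
    intro D
    rw [map_pow, map_pow, hpw D]
  by_cases hz : ∀ ζ : K, ¬ IsPrimitiveRoot ζ n
  · left
    exact hdouble (fun D => eq_of_pow hn hz _ _ (hpw D))
  · push Not at hz
    obtain ⟨ζ, hζ⟩ := hz
    have hζ' : IsPrimitiveRoot (MvPolynomial.C ζ : MvPolynomial (σ × ZMod n) K) n :=
      hζ.map_of_injective (MvPolynomial.C_injective _ _)
    have h1 := hζ'.pow_sub_pow_eq_prod_sub_mul (F k f 1) (F k f 0) hn.pos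
    rw [hpoly, sub_self] at h1
    obtain ⟨ξ, hξ, h2⟩ := Finset.prod_eq_zero_iff.mp h1.symm
    have hξ' : ξ ^ n = 1 := (Polynomial.mem_nthRootsFinset hn.pos _).mp hξ
    have : NeZero n := ⟨hn.ne_zero⟩
    obtain ⟨i, _, hi⟩ := hζ'.eq_pow_of_pow_eq_one hξ'
    have h3 : F k f 1 = MvPolynomial.C (ζ ^ i) * F k f 0 := by
      rw [map_pow, hi]
      exact sub_eq_zero.mp h2
    by_cases hω : ζ ^ i = 1
    · left
      apply hdouble
      intro D
      rw [h3, hω, MvPolynomial.C_1, one_mul]
    · right
      refine ⟨ζ ^ i, prim_of hn _ ?_ hω, h3⟩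
      rw [← pow_mul, mul_comm, pow_mul, hζ.pow_eq_one, one_pow]

lemma diag_cyc (hn : n.Prime) (k : σ → ZMod n) (f : FreeAlgebra K σ) (hf : Homogeneous k 0 f)
    (ζ : K) (h : F k f 1 = MvPolynomial.C ζ * F k f 0) (D : σ × ZMod n → K) :
    FreeAlgebra.lift K (cyc k D) f =
      Matrix.diagonal (fun p : Fin n => MvPolynomial.eval D (F k f 0) * ζ ^ (p : ℕ)) := by
  have h1 : ∀ j : ℕ, MvPolynomial.eval D (F k f (j : ZMod n))
      = MvPolynomial.eval D (F k f 0) * ζ ^ j := by
    intro j
    induction j with
    | zero => simp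
    | succ j ih =>
      rw [Nat.cast_succ, eval_F_shift, h, map_mul, MvPolynomial.eval_C, ← eval_F_shift, add_zero,
        ih, pow_succ]
      ring
  ext p q
  by_cases hpq : p = q
  · subst hpq
    rw [lift_cyc k f hf, Matrix.diagonal_apply_eq, h1]
  · rw [Matrix.diagonal_apply_ne _ hpq]
    apply gr_lift (fun p : Fin n => ((p : ℕ) : ZMod n)) k (cyc k D) (cyc_graded k D) f 0 hf
    rw [zero_add]
    exact fun h => hpq (cast_inj h)

omit [NeZero n] in
lemma profile_append (k : σ → ZMod n) (l l' : List σ) :
    profile k (l ++ l') = (profile k l).map (sh ((l'.map k).sum)) + profile k l' := by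
  induction l with
  | nil => simp [profile]
  | cons x l ih =>
    rw [List.cons_append]
    simp only [profile]
    rw [ih, List.map_append, List.sum_append, Multiset.map_cons, Multiset.cons_add]
    rfl

omit [NeZero n] in
lemma pow_profile (k : σ → ZMod n) (u : List σ) (hu : (u.map k).sum = 0) (m : ℕ) :
    (((List.replicate m u).flatten).map k).sum = 0 ∧
      ∀ x ∈ profile k (List.replicate m u).flatten, x ∈ profile k u := by
  induction m with
  | zero => simp [profile]
  | succ m ih =>
    rw [List.replicate_succ, List.flatten_cons]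
    refine ⟨by rw [List.map_append, List.sum_append, hu, ih.1, add_zero], ?_⟩
    intro x hx
    rw [profile_append, ih.1, Multiset.mem_add] at hx
    rcases hx with hx | hx
    · have : (sh (0 : ZMod n) : σ × ZMod n → σ × ZMod n) = id := by
        funext x; simp [sh]
      rwa [this, Multiset.map_id] at hx
    · exact ih.2 x hx

omit [NeZero n] in
lemma exists_phi (k : σ → ZMod n) (u : List σ) (hne : u ≠ [])
    (hnd : ((profile k u).map Prod.snd).Nodup) :
    ∃ φ : ZMod n → σ, ∀ x ∈ profile k u, x.1 = φ x.2 := by
  classical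
  obtain ⟨y0, u', rfl⟩ := List.exists_cons_of_ne_nil hne
  refine ⟨fun a => if h : ∃ y, (y, a) ∈ profile k (y0 :: u') then h.choose else y0, ?_⟩
  rintro ⟨y, a⟩ hx
  have h : ∃ y, (y, a) ∈ profile k (y0 :: u') := ⟨y, hx⟩
  simp only
  rw [dif_pos h]
  have h1 := Multiset.inj_on_of_nodup_map hnd (y, a) hx (h.choose, a) h.choose_spec rfl
  exact congrArg Prod.fst h1

lemma profile_one (l : List σ) : ∀ x ∈ profile (fun _ => (1 : ZMod n)) l, ∃ r : ℕ, r < l.length ∧
    x.2 = (r : ZMod n) := by
  induction l with
  | nil => simp [profile]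
  | cons y l ih =>
    intro x hx
    simp only [profile, Multiset.mem_cons] at hx
    rcases hx with rfl | hx
    · exact ⟨l.length, by simp, by simp⟩
    · obtain ⟨r, hr, h⟩ := ih x hx
      exact ⟨r, by simp; omega, h⟩

lemma nodup_one (l : List σ) (hl : l.length ≤ n) :
    ((profile (fun _ => (1 : ZMod n)) l).map Prod.snd).Nodup := by
  induction l with
  | nil => simp [profile]
  | cons y l ih =>
    simp only [profile, Multiset.map_cons, Multiset.nodup_cons]
    have hl' : l.length < n := by simpa using hl
    refine ⟨?_, ih hl'.le⟩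
    intro h
    obtain ⟨x, hx, h1⟩ := Multiset.mem_map.mp h
    obtain ⟨r, hr, h2⟩ := profile_one l x hx
    rw [h2] at h1
    have h3 : ((r : ℕ) : ZMod n) = ((l.length : ℕ) : ZMod n) := by
      rw [h1]; simp
    have h4 := congrArg ZMod.val h3
    rw [ZMod.val_natCast_of_lt (by omega), ZMod.val_natCast_of_lt hl'] at h4
    omega

end Second

/-- Let `K` be an infinite field, `n` a prime which is not the characteristic of `K`, and `f` an
`n`-central polynomial for `M_n(K)`.

(1) Let the variables and the vectors of the standard basis have degrees in an abelian group `Γ`, let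
`f` be homogeneous of weight `s` and let the matrices `X i` be homogeneous. If `f(X) ^ n` is not zero
then the following holds. If `s ≠ 0` then `s` has the order `n` and the degrees of the basis vectors are
the `n` elements of a coset of the subgroup generated by `s`, each once. If `s = 0` and `K` contains no
primitive `n`-th root of unity then at most one degree has multiplicity one. If `s = 0` and the `n`-th
cyclotomic polynomial is irreducible over `K` then every degree has multiplicity at most `1` or at
least `n - 1`.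

(2) Let `Γ = ZMod n`, let `f` be homogeneous of weight `0`, and let the basis vectors have the degrees
`0, 1, …, n - 1`. Then one of the following holds.
* `f` vanishes at all graded tuples; for every profile `P` the sum of the coefficients of the words with
  the profile `P` is zero; and every word occurring in `f` contains two different letters which are
  followed by words of the same weight.
* `K` contains a primitive `n`-th root of unity `ζ` such that every value of `f` at a graded tuple is a
  scalar multiple of `diag(1, ζ, …, ζ ^ (n - 1))`, and the sum of the coefficients of the words with the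
  profile `P` is `ζ` times the one for the shifted profile.

(3) Suppose that `K` contains no primitive `n`-th root of unity, and let `f` be homogeneous of weight
`0` for some weights in `ZMod n`. Let `u` be a word of weight `0` whose proper final segments (with the
empty one) have different weights. Then no power of `u` occurs in `f`.

(4) Suppose that `K` contains no primitive `n`-th root of unity and all words which occur in `f` have
the same length. Then no power of a word of length `n` occurs in `f`. -/
theorem result {K : Type*} [Field K] [Infinite K] {σ : Type*} (n : ℕ) (hn : n.Prime)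
    (hnK : (n : K) ≠ 0) (f : FreeAlgebra K σ) (hcen : IsNuCentral n n f) :
    (∀ (Γ : Type) [AddCommGroup Γ] (k : σ → Γ) (deg : Fin n → Γ) (s : Γ)
      (X : σ → Matrix (Fin n) (Fin n) K), Homogeneous k s f → Graded k deg X →
      FreeAlgebra.lift K X f ^ n ≠ 0 →
      (s ≠ 0 → n • s = 0 ∧ Function.Injective deg ∧
        ∀ (p : Fin n) (j : ℕ), ∃ q, deg q = j • s + deg p) ∧
      (s = 0 → (∀ ζ : K, ¬ IsPrimitiveRoot ζ n) → ∀ p q : Fin n, p ≠ q →
        (∃ r, r ≠ p ∧ deg r = deg p) ∨ ∃ r, r ≠ q ∧ deg r = deg q) ∧
      (s = 0 → Irreducible (Polynomial.cyclotomic n K) → ∀ γ : Γ,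
        Nat.card {p // deg p = γ} ≤ 1 ∨ n - 1 ≤ Nat.card {p // deg p = γ})) ∧
    (∀ k : σ → ZMod n, Homogeneous k 0 f →
      ((∀ X : σ → Matrix (Fin n) (Fin n) K, Graded k (fun p : Fin n => ((p : ℕ) : ZMod n)) X →
          FreeAlgebra.lift K X f = 0) ∧
        (∀ P, classSum k f P = 0) ∧
        ∀ l : List σ, coef f l ≠ 0 →
          ∃ x ∈ profile k l, ∃ y ∈ profile k l, x.2 = y.2 ∧ x.1 ≠ y.1) ∨
      ∃ ζ : K, IsPrimitiveRoot ζ n ∧
        (∀ X : σ → Matrix (Fin n) (Fin n) K, Graded k (fun p : Fin n => ((p : ℕ) : ZMod n)) X →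
          ∃ c : K, FreeAlgebra.lift K X f = Matrix.diagonal (fun p : Fin n => c * ζ ^ (p : ℕ))) ∧
        ∀ P, classSum k f P = ζ * classSum k f (P.map fun x => (x.1, x.2 + 1))) ∧
    ((∀ ζ : K, ¬ IsPrimitiveRoot ζ n) → ∀ k : σ → ZMod n, Homogeneous k 0 f →
      ∀ u : List σ, (u.map k).sum = 0 → ((profile k u).map Prod.snd).Nodup →
        ∀ m : ℕ, coef f (List.replicate m u).flatten = 0) ∧
    ((∀ ζ : K, ¬ IsPrimitiveRoot ζ n) → ∀ N : ℕ, (∀ l : List σ, coef f l ≠ 0 → l.length = N) →
      ∀ u : List σ, u.length = n → ∀ m : ℕ, coef f (List.replicate m u).flatten = 0) := by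
  classical
  have : NeZero n := ⟨hn.ne_zero⟩
  have hnil : coef f [] = 0 := Pool.Agent.R176.NC.coef_nil n hn hnK f hcen
  have hdet : ∀ k : σ → ZMod n, (∀ P, classSum k f P = 0) → ∀ (φ : ZMod n → σ) (l : List σ),
      (∀ x ∈ profile k l, x.1 = φ x.2) → coef f l = 0 := by
    intro k h φ l hl
    rw [← cls_det k f φ l hl]
    exact h _
  have h3 : (∀ ζ : K, ¬ IsPrimitiveRoot ζ n) → ∀ k : σ → ZMod n, Homogeneous k 0 f →
      ∀ u : List σ, (u.map k).sum = 0 → ((profile k u).map Prod.snd).Nodup →
        ∀ m : ℕ, coef f (List.replicate m u).flatten = 0 := by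
    intro hz k hf u hu hnd m
    by_cases hne : u = []
    · subst hne
      have : (List.replicate m ([] : List σ)).flatten = [] := by simp
      rw [this, hnil]
    obtain ⟨φ, hφ⟩ := exists_phi k u hne hnd
    rcases third_part hn hnK f hcen k hf with h | ⟨ζ, hζ, _⟩
    · apply hdet k _ φ
      · intro x hx
        exact hφ x ((pow_profile k u hu m).2 x hx)
      · intro P
        rw [cls_eq, h, MvPolynomial.coeff_zero]
    · exact absurd hζ (hz ζ)
  refine ⟨?_, ?_, h3, ?_⟩
  · intro Γ _ k deg s X hf hX hne
    have hM := gr_lift deg k X hX f s hf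
    obtain ⟨c, hc⟩ := Pool.Agent.R176.NC.charpoly_eq n hn hnK f hcen X
    refine ⟨fun hs => first_part hn deg s _ hM c (pow_eq_scalar _ c hc) hne hs, ?_, ?_⟩
    swap
    · rintro rfl hirr γ
      refine block_part hn hirr deg _ hM c ?_ hc γ
      rintro rfl
      apply hne
      rw [pow_eq_scalar _ 0 hc, map_zero]
    rintro rfl hz p q hpq
    by_contra hcon
    push Not at hcon
    have h1 := second_part hn hnK hz deg _ hM c hc p q hpq
      (fun r hr => by by_contra h; exact hcon.1 r h hr)
      (fun r hr => by by_contra h; exact hcon.2 r h hr)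
    apply hne
    rw [pow_eq_scalar _ c hc, h1.1, map_zero]
  · intro k hf
    rcases third_part hn hnK f hcen k hf with h | ⟨ζ, hζ, h⟩
    · left
      have hcls : ∀ P, classSum k f P = 0 := by
        intro P
        rw [cls_eq, h, MvPolynomial.coeff_zero]
      refine ⟨?_, hcls, ?_⟩
      · intro X hX
        obtain ⟨D, rfl⟩ := eq_cyc k X hX
        have h1 := diag_cyc hn k f hf 1 (by
          have : F k f 1 = 0 := by
            apply MvPolynomial.funext
            intro D
            have h2 := eval_F_shift k f 1 0 D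
            rw [add_zero, h, map_zero] at h2
            rw [h2, map_zero]
          rw [this, h, mul_zero]) D
        rw [h1, h, map_zero]
        simp
      · intro l hl
        by_contra hcon
        push Not at hcon
        apply hl
        by_cases hne : l = []
        · rw [hne, hnil]
        obtain ⟨y0, l', rfl⟩ := List.exists_cons_of_ne_nil hne
        refine hdet k hcls (fun a => if h : ∃ y, (y, a) ∈ profile k (y0 :: l') then h.choose
          else y0) _ ?_
        rintro ⟨y, a⟩ hx
        have h : ∃ y, (y, a) ∈ profile k (y0 :: l') := ⟨y, hx⟩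
        simp only
        rw [dif_pos h]
        exact hcon (y, a) hx (h.choose, a) h.choose_spec rfl
    · right
      refine ⟨ζ, hζ, ?_, ?_⟩
      · intro X hX
        obtain ⟨D, rfl⟩ := eq_cyc k X hX
        exact ⟨_, diag_cyc hn k f hf ζ h D⟩
      · intro P
        rw [cls_eq_shift k f P 1, h, MvPolynomial.coeff_C_mul]
        rw [cls_eq k f (P.map fun x => (x.1, x.2 + 1))]
        rfl
  · intro hz N hN u hu m
    by_cases hN0 : ((N : ℕ) : ZMod n) = 0
    · have hf : Homogeneous (fun _ : σ => (1 : ZMod n)) 0 f := by
        intro l hl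
        rw [List.map_const', List.sum_replicate, nsmul_eq_mul, mul_one, hN l hl, hN0]
      apply h3 hz _ hf u _ (nodup_one u hu.le) m
      rw [List.map_const', List.sum_replicate, nsmul_eq_mul, mul_one, hu, ZMod.natCast_self]
    · by_contra hne
      have h1 := hN _ hne
      apply hN0
      rw [← h1, List.length_flatten, List.map_replicate, List.sum_replicate, hu]
      simp

end Pool.Agent.Results.MP_5d2531_al.GradedTuples
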