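import Mathlib
import Pool.Agent.U605.CZ.G13

/-! Let `n` be prime, `f` an `n`-central polynomial for `M_n(K)` and `C` the algebra of the
polynomials which commute with `f`.  At every tuple `X` of matrices over every field `L`
containing `K`, also where `f(X)` is nilpotent, the algebra `C` is mapped into a Kummer algebra
`L[T] / (T ^ n - d)` with `d ≠ 0`, in such a way that the characteristic polynomials are those of
the values `g(X)`. -/

set_option autoImplicit false

universe u v w

namespace Pool.Agent.Results.MP_5d2531_al.KummerSpecialisation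

open Pool.Agent.U605.CZ

/-- Every value of `f` on `n × n` matrices over `K` is a scalar matrix. -/
def ScalarValued {K : Type u} [Field K] {σ : Type v} (n : ℕ) (f : FreeAlgebra K σ) : Prop :=
  ∀ X : σ → Matrix (Fin n) (Fin n) K, ∃ c : K, FreeAlgebra.lift K X f = Matrix.scalar (Fin n) c

/-- `f` is central for `M_n(K)`: all values are scalar and `f` is not identically zero. -/
def IsCentral {K : Type u} [Field K] {σ : Type v} (n : ℕ) (f : FreeAlgebra K σ) : Prop :=
  ScalarValued n f ∧ ∃ X : σ → Matrix (Fin n) (Fin n) K, FreeAlgebra.lift K X f ≠ 0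

/-- `f` is `ν`-central for `M_n(K)`: `ν` is the least positive integer with `f ^ ν` central. -/
def IsNuCentral {K : Type u} [Field K] {σ : Type v} (n ν : ℕ) (f : FreeAlgebra K σ) : Prop :=
  0 < ν ∧ IsCentral n (f ^ ν) ∧ ∀ μ : ℕ, 0 < μ → IsCentral n (f ^ μ) → ν ≤ μ

/-- The algebra of all polynomials `g` which commute with `f` on `M_n(K)`: at every tuple of
`n × n` matrices over `K` the values of `g` and `f` commute. -/
def centraliser {K : Type u} [Field K] {σ : Type v} (n : ℕ) (f : FreeAlgebra K σ) :
    Subalgebra K (FreeAlgebra K σ) where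
  carrier := {g | ∀ X : σ → Matrix (Fin n) (Fin n) K,
    FreeAlgebra.lift K X g * FreeAlgebra.lift K X f =
      FreeAlgebra.lift K X f * FreeAlgebra.lift K X g}
  mul_mem' := by
    intro a b ha hb X
    rw [map_mul, mul_assoc, hb X, ← mul_assoc, ha X, mul_assoc]
  add_mem' := by
    intro a b ha hb X
    rw [map_add, add_mul, ha X, hb X, mul_add]
  algebraMap_mem' := by
    intro r X
    rw [AlgHom.commutes]
    exact Algebra.commutes r _

/-- The companion matrix of `T ^ n - d`: ones above the diagonal and `d` in the lower left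
corner. -/
def companion {L : Type w} [Field L] (n : ℕ) (d : L) : Matrix (Fin n) (Fin n) L :=
  Matrix.of fun a b => if (a : ℕ) + 1 = b then 1 else
    if (a : ℕ) + 1 = n ∧ (b : ℕ) = 0 then d else 0

/-- Let `n` be a prime, `K` an infinite field in which `n` is not zero, `f` an `n`-central
polynomial for `M_n(K)`, `L` a field containing `K` and `X` any tuple of `n × n` matrices over
`L`.  Then there are a non-zero `d` in `L` and a homomorphism `Φ` of `K`-algebras from the
centraliser of `f` to the algebra generated by the companion matrix of `T ^ n - d`, such that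
`Φ g` and `g(X)` have the same characteristic polynomial for all `g`.  This characteristic
polynomial has a solvable Galois group over `L`; if `L` contains a primitive `n`-th root of unity,
it splits over `L` or it is irreducible over `L` with a Galois group of order `n`. -/
theorem result {K : Type u} [Field K] [Infinite K] {σ : Type v} (n : ℕ)
    (hn : n.Prime) (hnK : (n : K) ≠ 0) (f : FreeAlgebra K σ) (hf : IsNuCentral n n f)
    (L : Type w) [Field L] [Algebra K L] (X : σ → Matrix (Fin n) (Fin n) L) :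
    ∃ d : L, d ≠ 0 ∧
      (∃ Φ : centraliser n f →ₐ[K] Matrix (Fin n) (Fin n) L, ∀ g : centraliser n f,
        Φ g ∈ Algebra.adjoin L {companion n d} ∧
          (Φ g).charpoly = (FreeAlgebra.lift K X (g : FreeAlgebra K σ)).charpoly) ∧
      ∀ g : centraliser n f,
        Group.IsSolvable (FreeAlgebra.lift K X (g : FreeAlgebra K σ)).charpoly.Gal ∧
        ((∃ ζ : L, IsPrimitiveRoot ζ n) →
          (FreeAlgebra.lift K X (g : FreeAlgebra K σ)).charpoly.Splits ∨
          (Irreducible (FreeAlgebra.lift K X (g : FreeAlgebra K σ)).charpoly ∧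
            Nat.card (FreeAlgebra.lift K X (g : FreeAlgebra K σ)).charpoly.Gal = n)) := by
  obtain ⟨h1, ⟨h2, X0, hX0⟩, h3⟩ := hf
  have hfX0 : FreeAlgebra.lift K X0 f ≠ 0 := by
    intro hz
    apply hX0
    rw [map_pow, hz, zero_pow hn.ne_zero]
  have hpow : ∀ X : σ → Matrix (Fin n) (Fin n) K, ∀ Z : Matrix (Fin n) (Fin n) K,
      FreeAlgebra.lift K X (f ^ n) * Z = Z * FreeAlgebra.lift K X (f ^ n) := by
    intro X Z
    obtain ⟨c, hc⟩ := h2 X
    rw [hc]
    exact (Matrix.scalar_commute c (fun _ => Commute.all _ _) Z).eq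
  have hne : ∃ X : σ → Matrix (Fin n) (Fin n) K, ∃ Z : Matrix (Fin n) (Fin n) K,
      FreeAlgebra.lift K X f * Z ≠ Z * FreeAlgebra.lift K X f := by
    by_contra hcon
    push Not at hcon
    have h4 : IsCentral n (f ^ 1) := by
      rw [pow_one]
      exact ⟨fun X => Pool.Agent.H552R3.PC.scalar_of_comm _ (fun Y => hcon X Y), X0, hfX0⟩
    have h5 := h3 1 one_pos h4
    have := hn.two_le
    omega
  obtain ⟨c, hc, hF, -⟩ := gen_facts hn hnK f f hpow hne ⟨X0, hX0⟩ (fun X => rfl)
  have hcm : ∀ g : centraliser n f, cm K n f g := by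
    intro g
    obtain ⟨_, _, _, h⟩ := gen_facts hn hnK f g hpow hne ⟨X0, hX0⟩ g.2
    exact h
  obtain ⟨d, hd, ⟨Φ, hΦ1, hΦ2, hΦ3, hΦ4, hΦ5⟩, hgal⟩ := kummer_spec hn hnK hc hF X
  refine ⟨d, hd, ⟨AlgHom.mk (RingHom.mk (MonoidHom.mk (OneHom.mk (fun g => Φ g) ?_) ?_) ?_ ?_) ?_,
    ?_⟩, ?_⟩
  · have h6 := hΦ3 1
    rw [map_one, map_one] at h6
    exact h6
  · exact fun g g' => hΦ1 g g' (hcm g) (hcm g')
  · have h6 := hΦ3 0
    rw [map_zero, map_zero] at h6
    exact h6
  · exact fun g g' => hΦ2 g g' (hcm g) (hcm g')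
  · exact fun a => hΦ3 a
  · exact fun g => ⟨hΦ4 g (hcm g), hΦ5 g (hcm g)⟩
  · exact fun g => ⟨(hgal g (hcm g)).1, fun ⟨ζ, hζ⟩ => (hgal g (hcm g)).2 ζ hζ⟩

end Pool.Agent.Results.MP_5d2531_al.KummerSpecialisation
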