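import Mathlib
import Pool.Agent.U605.CZ.G7

/-! A polynomial `g` which commutes with an `n`-central polynomial for `M_n(K)`, `n` an odd prime,
has `n` different eigenvalues only at irreducible tuples of matrices: if the characteristic
polynomial of `g(X)` is separable, then the matrices `X` have no common invariant subspace, over
any field. -/

set_option autoImplicit false

universe u v w

namespace Pool.Agent.Results.MP_5d2531_al.SeparableValuesIrreducible

open Pool.Agent.U605.CZ

/-- Every value of `f` on `n × n` matrices over `K` is a scalar matrix. -/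
def ScalarValued {K : Type u} [Field K] {σ : Type v} (n : ℕ) (f : FreeAlgebra K σ) : Prop :=
  ∀ X : σ → Matrix (Fin n) (Fin n) K, ∃ c : K, FreeAlgebra.lift K X f = Matrix.scalar (Fin n) c

/-- `f` is central for `M_n(K)`: all values are scalar and `f` is not identically zero. -/
def IsCentral {K : Type u} [Field K] {σ : Type v} (n : ℕ) (f : FreeAlgebra K σ) : Prop :=
  ScalarValued n f ∧ ∃ X : σ → Matrix (Fin n) (Fin n) K, FreeAlgebra.lift K X f ≠ 0

/-- `f` is `ν`-central for `M_n(K)`: `ν` is the least positive integer with `f ^ ν` central. -/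
def IsNuCentral {K : Type u} [Field K] {σ : Type v} (n ν : ℕ) (f : FreeAlgebra K σ) : Prop :=
  0 < ν ∧ IsCentral n (f ^ ν) ∧ ∀ μ : ℕ, 0 < μ → IsCentral n (f ^ μ) → ν ≤ μ

/-- `g` commutes with `f` on `M_n(K)`: so do their values at every tuple of matrices. -/
def CommuteOn {K : Type u} [Field K] {σ : Type v} (n : ℕ) (f g : FreeAlgebra K σ) : Prop :=
  ∀ X : σ → Matrix (Fin n) (Fin n) K,
    FreeAlgebra.lift K X f * FreeAlgebra.lift K X g = FreeAlgebra.lift K X g * FreeAlgebra.lift K X f

/-- The subspace `W` of `L ^ n` is invariant under all the matrices `X s`. -/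
def Invariant {L : Type w} [Field L] {σ : Type v} {n : ℕ} (X : σ → Matrix (Fin n) (Fin n) L)
    (W : Submodule L (Fin n → L)) : Prop :=
  ∀ s : σ, ∀ w ∈ W, Matrix.mulVec (X s) w ∈ W

/-- Let `n` be an odd prime and `K` an infinite field in which `n` and `n - 1` are not zero.  Let
`f` be an `n`-central polynomial for `M_n(K)` and `g` a polynomial which commutes with `f` on
`M_n(K)`.  Let `L` be a field containing `K` and `X` a tuple of `n × n` matrices over `L` such that
`g(X)` has a separable characteristic polynomial.  Then `0` and `L ^ n` are the only subspaces of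
`L ^ n` which are invariant under all matrices of the tuple. -/
theorem result {K : Type u} [Field K] [Infinite K] {σ : Type v} (n : ℕ)
    (hn : n.Prime) (hn2 : n ≠ 2) (hnK : (n : K) ≠ 0) (hnK1 : ((n - 1 : ℕ) : K) ≠ 0)
    (f : FreeAlgebra K σ) (hf : IsNuCentral n n f) (g : FreeAlgebra K σ) (hg : CommuteOn n f g)
    (L : Type w) [Field L] [Algebra K L] (X : σ → Matrix (Fin n) (Fin n) L)
    (hX : (FreeAlgebra.lift K X g).charpoly.Separable) (W : Submodule L (Fin n → L))
    (hW : Invariant X W) : W = ⊥ ∨ W = ⊤ := by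
  obtain ⟨h1, ⟨h2, X0, hX0⟩, h3⟩ := hf
  have hfX0 : FreeAlgebra.lift K X0 f ≠ 0 := by
    intro hz
    apply hX0
    rw [map_pow, hz, zero_pow hn.ne_zero]
  have hpow : ∀ X : σ → Matrix (Fin n) (Fin n) K, ∀ Z : Matrix (Fin n) (Fin n) K,
      FreeAlgebra.lift K X (f ^ n) * Z = Z * FreeAlgebra.lift K X (f ^ n) := by
    intro X Z
    obtain ⟨c, hc⟩ := h2 X
    rw [hc]
    exact (Matrix.scalar_commute c (fun _ => Commute.all _ _) Z).eq
  have hne : ∃ X : σ → Matrix (Fin n) (Fin n) K, ∃ Z : Matrix (Fin n) (Fin n) K,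
      FreeAlgebra.lift K X f * Z ≠ Z * FreeAlgebra.lift K X f := by
    by_contra hcon
    push Not at hcon
    have h4 : IsCentral n (f ^ 1) := by
      rw [pow_one]
      exact ⟨fun X => Pool.Agent.H552R3.PC.scalar_of_comm _ (fun Y => hcon X Y), X0, hfX0⟩
    have h5 := h3 1 one_pos h4
    have := hn.two_le
    omega
  obtain ⟨c, hc, hF, hGF⟩ := gen_facts hn hnK f g hpow hne ⟨X0, hX0⟩ (fun X => (hg X).symm)
  exact irreducible_of_separable hn hn2 hnK hnK1 hc hF hGF X hX W hW

end Pool.Agent.Results.MP_5d2531_al.SeparableValuesIrreducible
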